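import Mathlib

/-! The norm of the variable on the quotient by a principal ideal. -/

set_option autoImplicit false

namespace Pool.Agent.Q223.CJ

open Polynomial Module

/-- the determinant of a diagonal map on a product -/
theorem det_piMap {K : Type*} [Field K] {n : ℕ} {M : Fin n → Type*} [∀ i, AddCommGroup (M i)]
    [∀ i, Module K (M i)] [∀ i, FiniteDimensional K (M i)] (f : ∀ i, M i →ₗ[K] M i) :
    LinearMap.det (LinearMap.pi fun i => (f i) ∘ₗ LinearMap.proj i :
      (∀ i, M i) →ₗ[K] ∀ i, M i) = ∏ i, LinearMap.det (f i) := by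
  classical
  let b : ∀ i, Basis (Fin (finrank K (M i))) K (M i) := fun i => Module.finBasis K (M i)
  let B := Pi.basis b
  rw [← LinearMap.det_toMatrix B]
  have h : LinearMap.toMatrix B B (LinearMap.pi fun i => (f i) ∘ₗ LinearMap.proj i) =
      Matrix.blockDiagonal' (fun i => LinearMap.toMatrix (b i) (b i) (f i)) := by
    ext ⟨i, a⟩ ⟨j, c⟩
    rw [LinearMap.toMatrix_apply, Matrix.blockDiagonal'_apply]
    simp only [B, Pi.basis_apply, Pi.basis_repr, LinearMap.pi_apply, LinearMap.comp_apply,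
      LinearMap.proj_apply]
    split_ifs with hij
    · subst hij
      rw [Pi.single_eq_same, LinearMap.toMatrix_apply]
      rfl
    · rw [Pi.single_eq_of_ne hij, map_zero, map_zero]
      rfl
  rw [h, (Matrix.blockTriangular_blockDiagonal' _).det_fintype]
  refine Finset.prod_congr rfl fun k _ => ?_
  rw [← LinearMap.det_toMatrix (b k)]
  have h2 : (Matrix.blockDiagonal' (fun i => LinearMap.toMatrix (b i) (b i) (f i))).toSquareBlock
      Sigma.fst k = (LinearMap.toMatrix (b k) (b k) (f k)).submatrix (Equiv.sigmaSubtype k)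
        (Equiv.sigmaSubtype k) := by
    ext ⟨⟨i, a⟩, hi⟩ ⟨⟨j, c⟩, hj⟩
    simp only at hi hj
    subst hi
    subst hj
    simp [Matrix.toSquareBlock, Matrix.toSquareBlockProp, Matrix.blockDiagonal'_apply]
  rw [h2, Matrix.det_submatrix_equiv_self]

/-- the norm of the variable modulo a polynomial -/
theorem norm_root {F : Type*} [Field F] {d : F[X]} (hd : d ≠ 0) :
    Algebra.norm F (AdjoinRoot.root d) = (-1) ^ d.natDegree * (d.eval 0 / d.leadingCoeff) := by
  have h := Algebra.PowerBasis.norm_gen_eq_coeff_zero_minpoly (AdjoinRoot.powerBasis hd)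
  rw [AdjoinRoot.powerBasis_gen, AdjoinRoot.minpoly_root hd, AdjoinRoot.powerBasis_dim,
    coeff_mul_C, coeff_zero_eq_eval_zero, ← div_eq_mul_inv] at h
  exact h

/-- **The norm of the variable on the quotient by a principal ideal.** -/
theorem norm_quot {F S : Type*} [Field F] [CommRing S] [IsDomain S] [Algebra F[X] S] [Algebra F S]
    [IsScalarTower F F[X] S] {n : ℕ} (b : Basis (Fin n) F[X] S) {f : S} (hf : f ≠ 0) :
    Algebra.norm F (Ideal.Quotient.mk (Ideal.span {f}) (algebraMap F[X] S X)) =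
      (-1) ^ (Algebra.norm F[X] f).natDegree *
        ((Algebra.norm F[X] f).eval 0 / (Algebra.norm F[X] f).leadingCoeff) := by
  classical
  have hI : Ideal.span {f} ≠ ⊥ := Ideal.span_singleton_eq_bot.not.2 hf
  set d : Fin n → F[X] := Ideal.smithCoeffs b (Ideal.span {f}) hI with hdd
  have hd : ∀ i, d i ≠ 0 := fun i => Ideal.smithCoeffs_ne_zero b _ hI i
  let e : (S ⧸ Ideal.span {f}) ≃ₗ[F[X]] ∀ i, F[X] ⧸ Ideal.span {d i} :=
    Ideal.quotientEquivPiSpan (Ideal.span {f}) b hI
  let e' : (S ⧸ Ideal.span {f}) ≃ₗ[F] ∀ i, F[X] ⧸ Ideal.span {d i} := e.restrictScalars F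
  have hfin : ∀ i, FiniteDimensional F (F[X] ⧸ Ideal.span {d i}) := fun i =>
    PowerBasis.finite (AdjoinRoot.powerBasis (hd i))
  let g : ∀ i, (F[X] ⧸ Ideal.span {d i}) →ₗ[F] (F[X] ⧸ Ideal.span {d i}) := fun i =>
    Algebra.lmul F (F[X] ⧸ Ideal.span {d i}) (Ideal.Quotient.mk _ X)
  have h1 : Algebra.norm F (Ideal.Quotient.mk (Ideal.span {f}) (algebraMap F[X] S X)) =
      ∏ i, LinearMap.det (g i) := by
    rw [← det_piMap, Algebra.norm_apply, ← LinearMap.det_conj _ e']
    congr 1
    apply LinearMap.ext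
    intro z
    funext i
    change e (Ideal.Quotient.mk (Ideal.span {f}) (algebraMap F[X] S X) * e.symm z) i =
      Ideal.Quotient.mk _ X * z i
    have h2 : Ideal.Quotient.mk (Ideal.span {f}) (algebraMap F[X] S X) * e.symm z =
        (X : F[X]) • e.symm z := by
      rw [Algebra.smul_def]
      rfl
    rw [h2, map_smul, e.apply_symm_apply, Pi.smul_apply]
    obtain ⟨w, hw⟩ := Ideal.Quotient.mk_surjective (z i)
    rw [← hw]
    rfl
  have h3 : ∀ i, LinearMap.det (g i) =
      (-1) ^ (d i).natDegree * ((d i).eval 0 / (d i).leadingCoeff) := fun i => norm_root (hd i)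
  rw [h1, Finset.prod_congr rfl fun i _ => h3 i, Finset.prod_mul_distrib, Finset.prod_pow_eq_pow_sum,
    Finset.prod_div_distrib]
  obtain ⟨u, hu⟩ := associated_norm_prod_smith b hf
  obtain ⟨c, hc, hcu⟩ := Polynomial.isUnit_iff.1 u.isUnit
  set ν := Algebra.norm F[X] f with hν
  have hprod : ∏ i, d i = ν * C c := by
    rw [hcu]
    exact hu.symm
  have hc0 : c ≠ 0 := hc.ne_zero
  have hν0 : ν ≠ 0 := by
    rintro h
    have h4 : ∏ i, d i ≠ 0 := Finset.prod_ne_zero_iff.2 fun i _ => hd i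
    rw [hprod, h, zero_mul] at h4
    exact h4 rfl
  have h5 : ∑ i, (d i).natDegree = ν.natDegree := by
    rw [← natDegree_prod _ _ fun i _ => hd i, hprod, natDegree_mul_C hc0]
  have h6 : ∏ i, (d i).eval 0 = ν.eval 0 * c := by
    rw [← eval_prod, hprod, eval_mul, eval_C]
  have h7 : ∏ i, (d i).leadingCoeff = ν.leadingCoeff * c := by
    rw [← leadingCoeff_prod, hprod, leadingCoeff_mul, leadingCoeff_C]
  rw [h5, h6, h7, mul_div_mul_right _ _ hc0]

end Pool.Agent.Q223.CJ
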